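import Pool.Agent.Helper92.RECT.Goals1
import Pool.Agent.Helper28.Few.Macro

/-!
# Project RECT (MP_c578c8_lc): packet CMP, completeness of the token machine
-/

set_option autoImplicit false

namespace Pool.Agent.Helper19.RECT

open Pool.Agent.Helper65.LinSpace Pool.Agent.Helper78.Mpc Pool.Agent.Helper28.Ram Finset
open Pool.Agent.Helper28.Few
open Pool.Agent.Helper92.RECT

section general

variable {A : ℕ → ℕ} {N W : ℕ → ℕ → ℕ} {q : ℕ} {M : ℕ → ℕ}

theorem chs_succ_le (t : ℕ) : chs A N W q M (t + 1) ≤ chs A N W q M t + 1 := by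
  classical
  unfold chs
  rw [range_add_one, filter_insert]
  split_ifs
  · exact card_insert_le _ _
  · exact Nat.le_succ _

theorem chs_succ_of_not {t : ℕ} (h : ¬chg A N W q M t) :
    chs A N W q M (t + 1) = chs A N W q M t := by
  classical
  unfold chs
  rw [range_add_one, filter_insert, if_neg h]

theorem not_chg_of_eq {t : ℕ} (h : cf A N W q M (t + 1) = cf A N W q M t) :
    ¬chg A N W q M t := by
  intro hc
  apply hc
  have h1 := congrFun (congrArg Prod.snd h) (A (cf A N W q M t).1)
  rw [cf_succ] at h1
  change Function.update _ _ _ _ = _ at h1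
  rw [Function.update_self] at h1
  exact h1

end general

theorem mem_lt (P : Pr) (T : ℕ) : ∀ B, (P.conf T).2 B < 2 ^ P.a := by
  induction T with
  | zero => exact fun B => Nat.mod_lt _ (by positivity)
  | succ T ih =>
    intro B
    have e : P.conf (T + 1) = (P.fN (P.conf T).1 ((P.conf T).2 (P.fA (P.conf T).1)),
      Function.update (P.conf T).2 (P.fA (P.conf T).1)
        (P.fW (P.conf T).1 ((P.conf T).2 (P.fA (P.conf T).1)))) := rfl
    rw [e]
    show Function.update (P.conf T).2 _ _ B < _
    by_cases h : B = P.fA (P.conf T).1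
    · rw [h, Function.update_self]
      exact Nat.mod_lt _ (by positivity)
    · rw [Function.update_of_ne h]
      exact ih B

theorem crs_mono (P : Pr) {s t : ℕ} (h : s ≤ t) : crs P s ≤ crs P t := by
  classical
  exact card_le_card (filter_subset_filter _ (range_mono h))

theorem ncr_mono (P : Pr) (Nw : ℕ → Prop) {s t : ℕ} (h : s ≤ t) : ncr P Nw s ≤ ncr P Nw t := by
  classical
  exact card_le_card (filter_subset_filter _ (range_mono h))

theorem crs_succ (P : Pr) {s t : ℕ} (h : t ≤ s)
    (hs : P.blk (P.ce (P.X s).1) ≠ P.blk (P.ce (P.X (s + 1)).1)) :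
    crs P t + 1 ≤ crs P (s + 1) := by
  classical
  refine le_trans (Nat.add_le_add_right (crs_mono P h) 1) ?_
  unfold crs
  rw [range_add_one (n := s), filter_insert, if_pos hs, card_insert_of_notMem (by simp)]

theorem ncr_succ (P : Pr) (Nw : ℕ → Prop) {s t : ℕ} (h : t ≤ s) (hn : Nw s)
    (hs : P.blk (P.ce (P.X s).1) ≠ P.blk (P.ce (P.X (s + 1)).1)) :
    ncr P Nw t + 1 ≤ ncr P Nw (s + 1) := by
  classical
  refine le_trans (Nat.add_le_add_right (ncr_mono P Nw h) 1) ?_
  unfold ncr
  rw [range_add_one (n := s), filter_insert, if_pos ⟨hn, hs⟩, card_insert_of_notMem (by simp)]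

/-- **CMP.** -/
theorem cmp (hT : STT_stmt) : CMP_stmt := by
  intro P hok Nw r hTc hrT hfin hnf hfc hN
  have habs : Absorb P.fA P.fN P.fW P.f0 P.cm (fun Q => Q = 1) := by
    intro T h1
    exact hT.stop P hok T (le_of_eq h1) (mem_lt P T)
  have hinv : ∀ T : ℕ, (∃ t ≤ r, Out P (P.conf T) t ∧
      ((t < r ∧ T ≤ crs P t ∧ chs P.fA P.fN P.fW P.f0 P.cm T ≤ ncr P Nw t) ∨
        (t = r ∧ chs P.fA P.fN P.fW P.f0 P.cm T ≤ ncr P Nw r + 1))) ∨
      ((P.conf T).1 = 1 ∧ chs P.fA P.fN P.fW P.f0 P.cm T ≤ ncr P Nw r + 1) := by
    intro T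
    induction T with
    | zero =>
      have h0 : chs P.fA P.fN P.fW P.f0 P.cm 0 = 0 := by
        classical
        simp [chs]
      left
      refine ⟨0, Nat.zero_le _, hT.start P hok, ?_⟩
      rw [h0]
      rcases Nat.eq_zero_or_pos r with h | h
      · exact Or.inr ⟨h.symm, Nat.zero_le _⟩
      · exact Or.inl ⟨h, Nat.zero_le _, Nat.zero_le _⟩
    | succ T ih =>
      rcases ih with ⟨t, htr, hO, h⟩ | ⟨h1, h2⟩
      · rcases h with ⟨ht, hc1, hc2⟩ | ⟨ht, hc2⟩
        · obtain ⟨m, hm0, hmT, hO', hin, hend, hsame⟩ := hT.step P hok hTc T t hO (hnf t ht)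
          have hle : t + m ≤ r := by
            by_contra hcon
            exact hfin (hin r htr (by omega)).2
          left
          refine ⟨t + m, hle, hO', ?_⟩
          have hs := chs_succ_le (A := P.fA) (N := P.fN) (W := P.fW) (q := P.f0) (M := P.cm) T
          rcases Nat.lt_or_ge (t + m) r with hlt | hge
          · left
            have hblk : P.blk (P.ce (P.X (t + m)).1) ≠ P.blk (P.ce (P.X t).1) := by
              rcases hend with h3 | h3 | h3
              · omega
              · exact h3
              · exact absurd (hnf _ hlt) h3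
            obtain ⟨s, hs1⟩ : ∃ s, t + m = s + 1 := ⟨t + m - 1, by omega⟩
            have hbs : P.blk (P.ce (P.X s).1) = P.blk (P.ce (P.X t).1) :=
              (hin s (by omega) (by omega)).1
            have hbs' : P.blk (P.ce (P.X s).1) ≠ P.blk (P.ce (P.X (s + 1)).1) := by
              rw [hbs, ← hs1]
              exact fun h7 => hblk h7.symm
            refine ⟨hlt, ?_, ?_⟩
            · have := crs_succ P (s := s) (t := t) (by omega) hbs'
              rw [hs1]
              omega
            · by_cases hc : chg P.fA P.fN P.fW P.f0 P.cm T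
              · obtain ⟨v, hv1, hv2, hv3⟩ : ∃ v, t ≤ v ∧ v < t + m ∧
                    (P.X (v + 1)).2 ≠ (P.X v).2 := by
                  by_contra hcon
                  push Not at hcon
                  exact hc (hsame hcon)
                have hnw : Nw s := by
                  refine hN v s (by omega) (by omega) hv3 fun j hj1 hj2 => ?_
                  rw [(hin j (by omega) (by omega)).1, ← hs1]
                  exact fun h7 => hblk h7.symm
                have := ncr_succ P Nw (s := s) (t := t) (by omega) hnw hbs'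
                rw [hs1]
                omega
              · rw [chs_succ_of_not hc]
                exact hc2.trans (ncr_mono P Nw (by omega))
          · right
            have : t + m = r := by omega
            refine ⟨this, ?_⟩
            have := ncr_mono P Nw ht.le
            omega
        · subst ht
          obtain ⟨h3, h4, h5⟩ := hT.check P hok T t hO hfin
          right
          have hnc : ¬chg P.fA P.fN P.fW P.f0 P.cm T := fun hc => hc h5
          rw [chs_succ_of_not hnc]
          refine ⟨?_, hc2⟩
          rw [h3]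
          unfold lt01
          rw [if_pos (Nat.pos_of_ne_zero hfc)]
      · right
        have hk : P.conf (T + 1) = P.conf T := habs T h1
        have hnc : ¬chg P.fA P.fN P.fW P.f0 P.cm T := not_chg_of_eq hk
        rw [chs_succ_of_not hnc, hk]
        exact ⟨h1, h2⟩
  refine ⟨habs, ?_, ?_⟩
  · rcases hinv (crs P r + 1) with ⟨t, htr, hO, h⟩ | ⟨h1, h2⟩
    · rcases h with ⟨ht, hc1, hc2⟩ | ⟨ht, hc2⟩
      · exfalso
        have := crs_mono P ht.le
        omega
      · subst ht
        obtain ⟨h3, h4, h5⟩ := hT.check P hok (crs P t + 1) t hO hfin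
        show (P.conf (crs P t + 1 + 1)).1 = 1
        rw [h3]
        unfold lt01
        rw [if_pos (Nat.pos_of_ne_zero hfc)]
    · have hk : P.conf (crs P r + 1 + 1) = P.conf (crs P r + 1) := habs _ h1
      show (P.conf (crs P r + 1 + 1)).1 = 1
      rw [hk]
      exact h1
  · rcases hinv (crs P r + 2) with ⟨t, htr, hO, h⟩ | ⟨h1, h2⟩
    · rcases h with ⟨ht, hc1, hc2⟩ | ⟨ht, hc2⟩
      · have := ncr_mono P Nw ht.le
        omega
      · exact hc2
    · exact h2

end Pool.Agent.Helper19.RECT
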