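import Pool.Agent.Helper92.RECT.Goals5

/-!
# Project RECT (MP_c578c8_lc): packet OKS, the numbers of the local process are in the range
-/

set_option autoImplicit false

namespace Pool.Agent.Helper19.RECT

open Pool.Agent.Helper65.LinSpace Pool.Agent.Helper78.Mpc Pool.Agent.Helper28.Ram Finset
open Pool.Agent.Helper65.OH (Prm)
open Pool.Agent.Helper92.RECT

/-- Two digits. -/
theorem two_lt {x y a b : ℕ} (hx : x < 2 ^ a) (hy : y < 2 ^ b) : x + 2 ^ a * y < 2 ^ (a + b) := by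
  have h1 : 2 ^ a * y + 2 ^ a ≤ 2 ^ (a + b) := by
    rw [pow_add, ← Nat.mul_succ]
    exact Nat.mul_le_mul_left _ hy
  omega

theorem ifz_prop {p : ℕ → Prop} {c x y : ℕ} (hx : c = 0 → p x) (hy : c ≠ 0 → p y) :
    p (ifz c x y) := by
  unfold ifz
  split_ifs with h
  · exact hx h
  · exact hy h

section

variable {s : Sp}

theorem cod_lt {u md i j t p : ℕ} (hu : u < 2 ^ (s.m.S + 1)) (hm : md < 8)
    (hp : p < 2 ^ (s.m.κ * s.m.D)) : s.cod u md i j t p < 2 ^ (s.θ + s.m.κ * s.m.D) := by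
  unfold Sp.cod
  refine two_lt ?_ hp
  unfold Sp.θ
  refine two_lt hu ?_
  have h1 : t % 2 ^ s.te < 2 ^ s.te := Nat.mod_lt _ (by positivity)
  have h2 := two_lt (Nat.mod_lt j (by positivity : 0 < 2 ^ s.ν)) h1
  have h3 := two_lt (Nat.mod_lt i (by positivity : 0 < 2 ^ s.ν)) h2
  have h4 := two_lt (show md < 2 ^ 3 by norm_num; exact hm) h3
  have e : 3 + 2 * s.ν + s.te = 3 + (s.ν + (s.ν + s.te)) := by ring
  rw [e]
  exact h4

theorem c0_lt (hκ : 1 ≤ s.m.κ) : s.c0 < 2 ^ (s.m.κ * s.m.D) := by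
  unfold Sp.c0
  rw [pow_mul]
  exact tab_lt fun _ _ => Nat.pow_lt_pow_right (by norm_num) (by omega)

theorem fl_lt (hκ : 1 ≤ s.m.κ) : s.fl < 2 ^ (s.θ + s.m.κ * s.m.D) :=
  cod_lt (Nat.one_lt_two_pow (by omega)) (by norm_num) (c0_lt hκ)

theorem en_lt (hκ : 1 ≤ s.m.κ) {u i j t p : ℕ} (hu : u < 2 ^ (s.m.S + 1))
    (hp : p < 2 ^ (s.m.κ * s.m.D)) : s.en u i j t p < 2 ^ (s.θ + s.m.κ * s.m.D) := by
  unfold Sp.en
  exact ifz_prop (p := fun x => x < 2 ^ (s.θ + s.m.κ * s.m.D)) (fun _ => fl_lt hκ)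
    (fun _ => cod_lt hu (by norm_num) hp)

theorem st0_lt (hD : 0 < s.m.D) {p u : ℕ} (hp : p < 2 ^ (s.m.κ * s.m.D)) (hu : u < 2 ^ s.m.κ) :
    s.st0 p u < 2 ^ (s.m.κ * s.m.D) := by
  unfold Sp.st0
  obtain ⟨D, hD'⟩ : ∃ D, s.m.D = D + 1 := ⟨s.m.D - 1, by omega⟩
  rw [hD'] at hp ⊢
  have e : s.m.κ * (D + 1) = s.m.κ + s.m.κ * D := by ring
  rw [e] at hp ⊢
  have h1 : p / 2 ^ s.m.κ < 2 ^ (s.m.κ * D) := by
    rw [Nat.div_lt_iff_lt_mul (by positivity), mul_comm, ← pow_add]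
    exact hp
  have h2 : p - p % 2 ^ s.m.κ = 2 ^ s.m.κ * (p / 2 ^ s.m.κ) := by
    have := Nat.div_add_mod p (2 ^ s.m.κ)
    omega
  rw [h2, add_comm]
  exact two_lt hu h1

theorem lC_lt (p : ℕ) : s.lC p < 2 ^ (s.m.κ * s.m.D) := by
  unfold Sp.lC
  rw [pow_mul]
  exact tab_lt fun _ _ => Nat.mod_lt _ (by positivity)

theorem split_lt {z : ℕ} (hz : z < 2 ^ (s.m.S + 1 + s.m.κ * s.m.D)) :
    z % 2 ^ (s.m.S + 1) < 2 ^ (s.m.S + 1) ∧ z / 2 ^ (s.m.S + 1) < 2 ^ (s.m.κ * s.m.D) := by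
  refine ⟨Nat.mod_lt _ (by positivity), ?_⟩
  rw [Nat.div_lt_iff_lt_mul (by positivity), mul_comm, ← pow_add]
  exact hz

theorem rec_lt (L i : ℕ) : dig (2 ^ s.m.sg) L i < 2 ^ (s.m.S + 1 + s.m.κ * s.m.D) :=
  dig_lt (by positivity) _ _

theorem inn_lt (hκ : 1 ≤ s.m.κ) {q z : ℕ} (hz : z < 2 ^ (s.m.S + 1 + s.m.κ * s.m.D)) :
    s.inn q z < 2 ^ (s.θ + s.m.κ * s.m.D) := by
  have h1 : 1 < 2 ^ (s.m.S + 1) := Nat.one_lt_two_pow (by omega)
  unfold Sp.inn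
  refine ifz_prop (p := fun x => x < 2 ^ (s.θ + s.m.κ * s.m.D)) (fun _ => ?_) (fun _ => ?_)
  · refine ifz_prop (p := fun x => x < 2 ^ (s.θ + s.m.κ * s.m.D)) (fun _ => ?_) (fun _ => ?_)
    · exact en_lt hκ (split_lt hz).1 (split_lt hz).2
    · exact ifz_prop (p := fun x => x < 2 ^ (s.θ + s.m.κ * s.m.D)) (fun _ => fl_lt hκ)
        (fun _ => cod_lt h1 (by norm_num) (c0_lt hκ))
  · exact ifz_prop (p := fun x => x < 2 ^ (s.θ + s.m.κ * s.m.D)) (fun _ => fl_lt hκ)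
      (fun _ => cod_lt h1 (by norm_num) (c0_lt hκ))

theorem sq_lt {m : Prm} {q v : ℕ} (ha : accN (m.wq q) = 0) (hok : m.ok q v ≠ 0) :
    m.sq q v < 2 ^ (m.S + 1 + m.κ * m.D) := by
  have hv : m.viol q (m.nu q v) = 0 := by
    by_contra hcon
    apply hok
    unfold Prm.ok
    rw [eq01_ne hcon]
    ring
  have h1 : m.sq q v = m.mk' (m.nu q v) fun k => m.cq q k + Prm.pl (m.nu q v) k -
      Prm.mi (m.nu q v) k := by
    unfold Prm.sq
    rw [ha, ifz_zero, ifz_ne hok]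
  rw [h1]
  unfold Prm.mk'
  refine two_lt (capN_lt _ _) ?_
  rw [pow_mul]
  refine tab_lt fun k hk => ?_
  unfold Prm.viol at hv
  rw [Finset.sum_eq_zero_iff] at hv
  have h2 := hv k (mem_range.2 hk)
  by_contra hcon
  have h3 : lt01 (m.cq q k + Prm.pl (m.nu q v) k - Prm.mi (m.nu q v) k) (2 ^ m.κ) = 0 := by
    unfold lt01
    rw [if_neg hcon]
  rw [h3, mul_zero] at h2
  omega

end

/-- **OKS.** -/
theorem oks : OKS_stmt := by
  intro s hD hκ hGS hW d a V Tc o ho ha hV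
  have h1 : 1 < 2 ^ (s.m.S + 1) := Nat.one_lt_two_pow (by omega)
  have hk : 2 ^ s.m.κ = 2 ^ (s.m.κ - 1) + 2 ^ (s.m.κ - 1) := by
    obtain ⟨k, hk⟩ : ∃ k, s.m.κ = k + 1 := ⟨s.m.κ - 1, by omega⟩
    rw [hk, pow_succ]
    simp only [Nat.add_sub_cancel]
    ring
  have hpos : 0 < 2 ^ (s.m.κ - 1) := by positivity
  refine ⟨by show 0 < d; omega, ho, ?_, ?_, ?_, ?_, ha, hV, lC_lt _⟩
  · intro q v hq hv
    show s.N q v < 2 ^ (s.θ + s.m.κ * s.m.D)
    unfold Sp.N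
    refine ifz_prop (p := fun x => x < 2 ^ (s.θ + s.m.κ * s.m.D)) (fun _ => ?_) (fun _ => ?_)
    · refine ifz_prop (p := fun x => x < 2 ^ (s.θ + s.m.κ * s.m.D)) (fun _ => ?_) (fun _ => ?_)
      · refine ifz_prop (p := fun x => x < 2 ^ (s.θ + s.m.κ * s.m.D)) (fun _ => fl_lt hκ)
          (fun _ => ?_)
        unfold Sp.N3
        exact en_lt hκ (Nat.mod_lt _ (by positivity)) (st0_lt hD (split_lt (rec_lt _ _)).2
          (by omega))
      · unfold Sp.N2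
        exact en_lt hκ (Nat.mod_lt _ (by positivity)) (st0_lt hD (split_lt (rec_lt _ _)).2
          (by omega))
    · unfold Sp.N1
      refine ifz_prop (p := fun x => x < 2 ^ (s.θ + s.m.κ * s.m.D)) (fun h => ?_)
        (fun _ => fl_lt hκ)
      have h2 : accN (s.wq q) = 0 := by omega
      have h3 : eq01 (s.m.ok (s.bq q) v) 0 = 0 := by omega
      have h4 : s.m.ok (s.bq q) v ≠ 0 := by
        intro h0
        rw [h0, eq01_of rfl] at h3
        omega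
      have h5 : s.m.wq (s.bq q) = s.wq q := by
        unfold Prm.wq Sp.bq
        rw [Nat.add_mul_mod_self_left]
        exact Nat.mod_mod _ _
      exact inn_lt hκ (sq_lt (by rw [h5]; exact h2) h4)
  · intro q v hq hv
    show s.Wr q v < 2 ^ (s.m.S + 1)
    have hv' : v < 2 ^ (s.m.S + 1) := hv
    unfold Sp.Wr
    refine ifz_prop (p := fun x => x < 2 ^ (s.m.S + 1)) (fun _ => hv') (fun _ => ?_)
    exact ifz_prop (p := fun x => x < 2 ^ (s.m.S + 1)) (fun _ => capN_lt _ _) (fun _ => hv')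
  · show s.q0 < 2 ^ (s.θ + s.m.κ * s.m.D)
    unfold Sp.q0
    refine ifz_prop (p := fun x => x < 2 ^ (s.θ + s.m.κ * s.m.D)) (fun _ => ?_)
      (fun _ => cod_lt h1 (by norm_num) (c0_lt hκ))
    refine ifz_prop (p := fun x => x < 2 ^ (s.θ + s.m.κ * s.m.D)) (fun _ => ?_)
      (fun _ => cod_lt h1 (by norm_num) (c0_lt hκ))
    exact ifz_prop (p := fun x => x < 2 ^ (s.θ + s.m.κ * s.m.D)) (fun _ => fl_lt hκ)
      (fun _ => cod_lt (Nat.mod_lt _ (by positivity)) (by norm_num) (lC_lt _))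
  · intro p
    show s.M0 p < 2 ^ (s.m.S + 1)
    unfold Sp.M0 Pool.Agent.Helper28.OHS.cn
    rw [← hGS]
    exact capN_lt _ _

end Pool.Agent.Helper19.RECT
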